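import Pool.Agent.TH694.CR.Main

/-!
# Constant-factor approximation of the crossing number is hard (Unique Games Conjecture)

The reduction: a unique game is turned (by a dictatorship test on the Boolean cube whose soundness
is proved by Fourier analysis and an L1 Poincare inequality) into a list of equations
`x_p + b = x_p' + b'` over the field with two elements, and such a list into a necklace graph. The
necklace is a cyclic chain of pieces, each made of two bundles of `W` paths on either side; a light
edge joins two of the handles of pieces. Drawings with few crossings of the necklace graph give
assignments violating few equations (a mod 2 winding number argument on the drawing), and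
assignments give drawings.
-/

set_option autoImplicit false

namespace Pool.Agent.Results.MP_8a730c_lc.UGCHard

open Pool.Agent.NPC Pool.Agent.NPC.H604 Pool.Agent.TH694.CR

/-- The function `A` on bit strings approximates the crossing number within the factor `c`: on the
code of the adjacency matrix of a graph `G` it returns the code of a number `k` with
`cr G ≤ k ≤ c * cr G` (a drawing of `G` with at most `c * cr G` crossings gives such a number). -/
def Approximates (c : ℝ) (A : List Bool → List Bool) : Prop :=
  ∀ (n : ℕ) (G : SimpleGraph (Fin n)),
    ∃ k : ℕ, A (bits (adjMat G)) = bits k ∧ cr G ≤ k ∧ (k : ℝ) ≤ c * cr G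

/-- **Crossing number is hard to approximate within any constant factor, under the Unique Games
Conjecture.** For every `c`, every language `L` in `NP` is reduced in polynomial time to the gap
problem `cr G ≤ t` against `cr G > c * t`; hence there is no polynomial-time approximation within
the factor `c`, unless `P = NP`. -/
theorem result (hUGC : UGC) (c : ℝ) :
    (∀ L : Set (List Bool), InNP L → ∃ (n t : List Bool → ℕ) (G : ∀ x, SimpleGraph (Fin (n x))),
      PolyTime (fun x => bits (adjMat (G x), t x)) ∧
      (∀ x ∈ L, cr (G x) ≤ t x) ∧ ∀ x ∉ L, c * t x < cr (G x)) ∧
    (PNeNP → ¬ ∃ A : List Bool → List Bool, PolyTime A ∧ Approximates c A) :=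
  ⟨fun L hL => CR694.reduction hUGC c L hL, fun hP => CR694.no_algorithm hUGC c hP⟩

end Pool.Agent.Results.MP_8a730c_lc.UGCHard
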